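import Mathlib
import Pool.Agent.Run7.h187.ShDefs
import Pool.Agent.Run7.h187.ShTab
import Pool.Agent.Run7.h187.ShDim

set_option autoImplicit false

/-!
Shang's conjectural character formula for free alternative algebras fails for `V = k³`.

`IsShang a b` is Shang's system of two equations for `a, b ∈ R₊`, written for characters.  The
theorem says: the system has exactly one solution `(a, b)`; its coefficient at `x₀³ x₁³ x₂` is
`152`; but the component of multidegree `(3, 3, 1)` of the free alternative algebra on three
generators over any field of characteristic zero has dimension at least `153`.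
-/

namespace Pool.Agent.Results.MP_9e3efc_al.ShangFails

open Run7.h187.Sh

/-- Shang's equations for `V = k³` have a unique solution `(a, b)`, and the character of the free
alternative algebra `Alt(V)` is not equal to `a`: the coefficients at `x₀³ x₁³ x₂` are at least
`153` and equal to `152` respectively. -/
theorem result (k : Type*) [Field k] [CharZero k] :
    ∃ a b : Deg → ℤ, IsShang a b ∧ (∀ a' b' : Deg → ℤ, IsShang a' b' → a' = a ∧ b' = b) ∧
      a (deg 3 3 1) = 152 ∧ 153 ≤ charAlt k (deg 3 3 1) ∧
      (charAlt k (deg 3 3 1) : ℤ) ≠ a (deg 3 3 1) := by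
  obtain ⟨a, b, h⟩ := exists_sol
  have h1 := isShang_val h
  have h2 := charAlt_ge k
  refine ⟨a, b, h, fun a' b' h' => isShang_unique h h', h1, h2, ?_⟩
  rw [h1]
  have h3 : (153 : ℤ) ≤ (charAlt k (deg 3 3 1) : ℤ) := by exact_mod_cast h2
  omega

end Pool.Agent.Results.MP_9e3efc_al.ShangFails
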